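import Mathlib
import Pool.Agent.Work.MP_2e7b1e_an.Defs
import Pool.Agent.Work.MP_2e7b1e_an.Ray2

/-!
The quantity `Φ(α)` equals `π` for every `α ∈ (0, 2]`; more precisely every number in `(-π, π)` is
the argument of the preimage of the tip for a suitable member of `Σ_α`.
-/

set_option autoImplicit false

open Complex Metric Set Filter Topology

namespace Pool.Agent.Results.MP_2e7b1e_an.TipSup

open Pool.Agent.Work.MP_2e7b1e_an

theorem result (α : ℝ) (h0 : 0 < α) (_h2 : α ≤ 2) :
    Phi α = Real.pi ∧ tipArguments α = Ioo (-Real.pi) Real.pi := by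
  have hset : tipArguments α = Ioo (-Real.pi) Real.pi := by
    ext φ
    constructor
    · intro h
      exact h.1
    · intro hφ
      refine ⟨hφ, rayMap (-Real.tan (φ / 2)), cc (-Real.tan (φ / 2)) / 4,
        ⟨classS_rayMap _, isSlit_ray _, -(φ / 2), inSector_ray hφ ⟨le_rfl, ?_⟩⟩, tipAt_ray hφ⟩
      have := Real.pi_pos
      have : 0 < α * Real.pi := mul_pos h0 this
      linarith
  refine ⟨?_, hset⟩
  unfold Phi
  rw [hset]
  apply csSup_eq_of_forall_le_of_forall_lt_exists_gt
  · exact ⟨|0|, 0, ⟨by linarith [Real.pi_pos], Real.pi_pos⟩, rfl⟩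
  · rintro _ ⟨φ, hφ, rfl⟩
    exact (abs_lt.mpr ⟨hφ.1, hφ.2⟩).le
  · intro w hw
    obtain ⟨x, hx1, hx2⟩ := exists_between (max_lt hw Real.pi_pos)
    refine ⟨|x|, ⟨x, ⟨?_, hx2⟩, rfl⟩, ?_⟩
    · have := le_max_right w 0
      linarith [Real.pi_pos]
    · have := le_max_left w 0
      have h3 := le_abs_self x
      linarith

end Pool.Agent.Results.MP_2e7b1e_an.TipSup
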