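import Mathlib
import Pool.Agent.Work.MP_2e7b1e_an.AxisDefs
import Pool.Agent.Work.MP_2e7b1e_an.Ray2
import Pool.Agent.Work.MP_2e7b1e_an.UpperMain3

/-!
The exact value of the supremum of the tip arguments for a prescribed direction of the axis of the
sector.
-/

set_option autoImplicit false

open Complex Metric Set Filter Topology

namespace Pool.Agent.Results.MP_2e7b1e_an.TipSupAxis

open Pool.Agent.Work.MP_2e7b1e_an

lemma mem_of_ray {α δ φ : ℝ} (hφ : φ ∈ Ioo (-Real.pi) Real.pi)
    (h1 : δ - α * Real.pi / 2 ≤ -φ) (h2 : -φ ≤ δ + α * Real.pi / 2) :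
    φ ∈ tipArgumentsAxis α δ := by
  have hpi := Real.pi_pos
  have hcos : 0 < Real.cos (φ / 2) := by
    apply Real.cos_pos_of_mem_Ioo
    constructor <;> linarith [hφ.1, hφ.2]
  have harg : arg (cc (-Real.tan (φ / 2)) / 4) = φ / 2 := by
    rw [cc_polar hφ]
    have h3 : (((Real.cos (φ / 2))⁻¹ : ℝ) : ℂ) * exp (((φ / 2 : ℝ) : ℂ) * I) / 4 =
        (((Real.cos (φ / 2))⁻¹ / 4 : ℝ) : ℂ) *
          (Complex.cos ((φ / 2 : ℝ) : ℂ) + Complex.sin ((φ / 2 : ℝ) : ℂ) * I) := by
      rw [exp_mul_I]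
      push_cast
      ring
    rw [h3, arg_mul_cos_add_sin_mul_I (by positivity)]
    constructor <;> linarith [hφ.1, hφ.2]
  refine ⟨hφ, rayMap (-Real.tan (φ / 2)), cc (-Real.tan (φ / 2)) / 4,
    ⟨classS_rayMap _, isSlit_ray _, ?_⟩, tipAt_ray hφ⟩
  apply inSector_ray hφ
  rw [harg]
  constructor <;> linarith

lemma bound_of_mem {α δ φ : ℝ} (hα : 0 < α) (hδ : |δ| + α * Real.pi / 2 < Real.pi)
    (h : φ ∈ tipArgumentsAxis α δ) :
    -δ - α * Real.pi / 2 ≤ φ ∧ φ ≤ -δ + α * Real.pi / 2 := by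
  have hpi := Real.pi_pos
  obtain ⟨hφ, f, ω₀, ⟨hS, hslit, hsec⟩, hT⟩ := h
  have hω₀ : ω₀ ∈ (f '' ball 0 1)ᶜ := by
    obtain ⟨γ, _, _, him, h0, _⟩ := hslit
    rw [← him, ← h0]
    exact ⟨0, ⟨le_rfl, one_pos⟩, rfl⟩
  have hω₀0 : ω₀ ≠ 0 := by
    rintro rfl
    exact hω₀ ⟨0, by simp, hS.2.2.1⟩
  have hrel : RelSector (f '' ball 0 1)ᶜ ω₀ (δ - α * Real.pi / 2) (δ + α * Real.pi / 2) := by
    intro ω hω hne
    obtain ⟨r, hr, s, hs, hrs⟩ := hsec ω hω hne
    have hn : 0 < ‖ω₀‖ := norm_pos_iff.mpr hω₀0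
    refine ⟨r / ‖ω₀‖, by positivity, s - arg ω₀, ⟨by linarith [hs.1], by linarith [hs.2]⟩, ?_⟩
    have h1 := norm_mul_exp_arg_mul_I ω₀
    have hn' : (‖ω₀‖ : ℂ) ≠ 0 := by exact_mod_cast hn.ne'
    calc ω - ω₀ = (r : ℂ) * exp ((s : ℂ) * I) := hrs
      _ = ((r / ‖ω₀‖ : ℝ) : ℂ) * ((‖ω₀‖ : ℂ) * exp ((arg ω₀ : ℂ) * I)) *
            exp (((s - arg ω₀ : ℝ) : ℂ) * I) := by
          have h2 : exp ((s : ℂ) * I) =
              exp ((arg ω₀ : ℂ) * I) * exp (((s - arg ω₀ : ℝ) : ℂ) * I) := by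
            rw [← exp_add]; congr 1; push_cast; ring
          rw [h2]
          push_cast
          field_simp
      _ = ((r / ‖ω₀‖ : ℝ) : ℂ) * ω₀ * exp (((s - arg ω₀ : ℝ) : ℂ) * I) := by rw [h1]
  have hαpi : 0 < α * Real.pi := mul_pos hα hpi
  have h1 := abs_lt.mp (lt_of_le_of_lt (le_refl |δ|) (by linarith : |δ| < Real.pi - α * Real.pi / 2))
  have := tip_bound hS hω₀ hrel (by linarith [h1.1]) (by linarith [h1.2]) (by linarith) hφ hT
  constructor <;> linarith [this.1, this.2]

theorem result (α δ : ℝ) (h0 : 0 < α) (_h2 : α ≤ 2) (hδ : |δ| ≤ Real.pi) :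
    IsLUB ((fun φ => |φ|) '' tipArgumentsAxis α δ) (min Real.pi (|δ| + α * Real.pi / 2)) ∧
      (|δ| + α * Real.pi / 2 < Real.pi →
        tipArgumentsAxis α δ = Icc (-δ - α * Real.pi / 2) (-δ + α * Real.pi / 2)) := by
  have hpi := Real.pi_pos
  have hαpi : 0 < α * Real.pi := mul_pos h0 hpi
  have hset : |δ| + α * Real.pi / 2 < Real.pi →
      tipArgumentsAxis α δ = Icc (-δ - α * Real.pi / 2) (-δ + α * Real.pi / 2) := by
    intro hlt
    have h1 := abs_lt.mp (by linarith : |δ| < Real.pi - α * Real.pi / 2)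
    ext φ
    constructor
    · intro h
      exact bound_of_mem h0 hlt h
    · intro h
      apply mem_of_ray
      · constructor
        · linarith [h.1, h1.2]
        · linarith [h.2, h1.1]
      · linarith [h.2]
      · linarith [h.1]
  refine ⟨?_, hset⟩
  rcases lt_or_ge (|δ| + α * Real.pi / 2) Real.pi with hlt | hge
  · rw [min_eq_right hlt.le, hset hlt]
    constructor
    · rintro _ ⟨φ, hφ, rfl⟩
      show |φ| ≤ _
      rw [abs_le]
      have h1 := neg_abs_le δ
      have h2 := le_abs_self δ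
      constructor <;> linarith [hφ.1, hφ.2]
    · intro b hb
      rcases abs_cases δ with ⟨h1, h2⟩ | ⟨h1, h2⟩
      · have := hb ⟨-δ - α * Real.pi / 2, ⟨le_rfl, by linarith⟩, rfl⟩
        simp only at this
        rw [abs_of_nonpos (by linarith)] at this
        linarith
      · have := hb ⟨-δ + α * Real.pi / 2, ⟨by linarith, le_rfl⟩, rfl⟩
        simp only at this
        rw [abs_of_nonneg (by linarith)] at this
        linarith
  · rw [min_eq_left hge]
    constructor
    · rintro _ ⟨φ, hφ, rfl⟩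
      exact (abs_lt.mpr ⟨hφ.1.1, hφ.1.2⟩).le
    · intro b hb
      by_contra hcon
      push Not at hcon
      rcases abs_cases δ with ⟨h1, h2⟩ | ⟨h1, h2⟩
      · -- `δ ≥ 0`: use `s → π`
        obtain ⟨s, hs1, hs2⟩ := exists_between
          (max_lt (max_lt hcon hpi) (by linarith : δ - α * Real.pi / 2 < Real.pi))
        have hs3 := ((le_max_left b 0).trans (le_max_left _ _)).trans_lt hs1
        have hs4 := ((le_max_right b 0).trans (le_max_left _ _)).trans_lt hs1
        have hs5 := (le_max_right _ _).trans_lt hs1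
        have hmem : -s ∈ tipArgumentsAxis α δ := by
          apply mem_of_ray
          · constructor <;> linarith
          · linarith
          · linarith
        have := hb ⟨-s, hmem, rfl⟩
        simp only at this
        rw [abs_neg, abs_of_pos hs4] at this
        linarith
      · obtain ⟨s, hs1, hs2⟩ := exists_between
          (max_lt (max_lt hcon hpi) (by linarith : -δ - α * Real.pi / 2 < Real.pi))
        have hs3 := ((le_max_left b 0).trans (le_max_left _ _)).trans_lt hs1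
        have hs4 := ((le_max_right b 0).trans (le_max_left _ _)).trans_lt hs1
        have hs5 := (le_max_right _ _).trans_lt hs1
        have hmem : s ∈ tipArgumentsAxis α δ := by
          apply mem_of_ray
          · constructor <;> linarith
          · linarith
          · linarith
        have := hb ⟨s, hmem, rfl⟩
        simp only at this
        rw [abs_of_pos hs4] at this
        linarith

end Pool.Agent.Results.MP_2e7b1e_an.TipSupAxis
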